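import Pool.Agent.FlowRec.Composite

/-!
# Integer versus cyclic-group flow reconfiguration: composite moduli (MP_3da9df_co, Q1)
-/

namespace Pool.Agent.Results.MP_3da9df_co.CompositeModuli

open Pool.Agent.FlowRec

/-- Let `k = d' * d` with `d ≥ 15` and `d' ≥ 53`. For every finite loopless multigraph `G`, both
`F(G, k)` and `F(G, ℤ/k)` are connected (any two of their vertices are joined by a path). -/
theorem result :
    ∀ (V E : Type) [Fintype V] [DecidableEq V] [Fintype E] (G : Multigraph V E) (k d d' : ℕ),
      k = d' * d → 15 ≤ d → 53 ≤ d' →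
        (intFlowGraph G k).Preconnected ∧ (groupFlowGraph G (ZMod k)).Preconnected := by
  classical
  intro V E _ _ _ G k d d' hk hd hd'
  have h := preconnected_of_mul G hk hd hd'
  exact ⟨h, group_preconnected G (by rw [hk]; nlinarith) h⟩

end Pool.Agent.Results.MP_3da9df_co.CompositeModuli
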