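import Mathlib
import Pool.Agent.H28.Flow.Main

set_option autoImplicit false

namespace Pool.Agent.Results.MP_3da9df_co.CyclesAtMostNine

open Pool.Agent.H28.Flow

/-- **Q1 holds, for every `k ≥ 2`, for every graph all of whose cycles have at most nine edges.** 
If `𝓕(G, ℤ_k)` is connected then so is `𝓕(G, k)`; more precisely, two nowhere-zero `k`-flows lie in
the same component of `𝓕(G, k)` if and only if their reductions modulo `k` lie in the same
component of `𝓕(G, ℤ_k)`. -/
theorem result {V E : Type} [Fintype V] [Fintype E] (G : OrientedMultigraph V E) (k : ℕ)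
    (hk : 2 ≤ k) (hG : ∀ S : Set E, G.IsCycleEdgeSet S → S.ncard ≤ 9) :
    ((G.groupFlowGraph (ZMod k)).Preconnected → (G.intFlowGraph k).Preconnected) ∧
    ∀ F F', (G.intFlowGraph k).Reachable F F' ↔
      (G.groupFlowGraph (ZMod k)).Reachable (G.reduce k F) (G.reduce k F') :=
  ⟨fun h F F' => (reachable_iff G k hk (Or.inr hG) F F').2 (h _ _),
    reachable_iff G k hk (Or.inr hG)⟩

end Pool.Agent.Results.MP_3da9df_co.CyclesAtMostNine
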