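import Pool.Agent.FlowRec.Six

/-!
# Integer versus cyclic-group flow reconfiguration: `k ≤ 6` (MP_3da9df_co, Q1)
-/

namespace Pool.Agent.Results.MP_3da9df_co.UpToSix

open Pool.Agent.FlowRec

/-- For `2 ≤ k ≤ 6` and every finite loopless multigraph `G`: two nowhere-zero `k`-flows are
connected in `F(G, k)` if and only if their residues modulo `k` are connected in `F(G, ℤ/k)`; and
if `F(G, ℤ/k)` is connected then `F(G, k)` is connected. -/
theorem result :
    ∀ (V E : Type) [Fintype V] [DecidableEq V] [Fintype E] (G : Multigraph V E) (k : ℕ),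
      2 ≤ k → k ≤ 6 → LiftsTo G k :=
  fun V E _ _ _ G k h2 h6 => liftsTo_upToSix h2 h6

end Pool.Agent.Results.MP_3da9df_co.UpToSix
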